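import Pool.Agent.Helper53.WP.Scale
import Pool.Graph.R_pool_sql_team_seeded_c8625f6e.K4H5.PC.Fin

/-!
# The bound for the height
-/

set_option autoImplicit false

open Polynomial MeasureTheory Finset
open scoped ENNReal

namespace Pool.Agent.Helper53.WP

open Pool.Agent.K4H5.PC

theorem syy_rec (m : ℕ) : syy (m + 2) = ∑ i ∈ range m, ∑ j ∈ range (m - i), j := by
  have h0 : syy (m + 2) = ∑ q : Fin m × Fin m,
      if (q.1 : ℕ) + (q.2 : ℕ) + 3 ≤ m + 2 then (q.2 : ℕ) else 0 := by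
    unfold syy
    rw [← sum_filter]
    refine sum_bij (fun q _ => q.1) ?_ ?_ ?_ ?_
    · intro q _
      rw [mem_filter]
      exact ⟨mem_univ _, q.2⟩
    · intro a _ b _ h
      exact Subtype.ext h
    · intro b hb
      rw [mem_filter] at hb
      exact ⟨⟨b, hb.2⟩, mem_univ _, rfl⟩
    · intro q _
      rfl
  rw [h0, Fintype.sum_prod_type, ← Fin.sum_univ_eq_sum_range]
  refine sum_congr rfl fun i _ => ?_
  rw [Fin.sum_univ_eq_sum_range (fun j => if (i : ℕ) + j + 3 ≤ m + 2 then j else 0) m,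
    ← sum_filter]
  have h2 : (range m).filter (fun j => (i : ℕ) + j + 3 ≤ m + 2) = range (m - i) := by
    ext j
    rw [mem_filter, mem_range, mem_range]
    omega
  rw [h2]

theorem sxx_syy (D : ℕ) : sxx D = syy D := by
  unfold sxx syy
  refine sum_bij (fun q _ => ⟨(q.1.2, q.1.1), ?_⟩) ?_ ?_ ?_ ?_
  · have := q.2
    show (q.1.2 : ℕ) + (q.1.1 : ℕ) + 3 ≤ D
    omega
  · intro q _
    exact mem_univ _
  · intro a _ b _ h
    have h1 := congrArg Subtype.val h
    simp only [Prod.mk.injEq] at h1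
    exact Subtype.ext (Prod.ext h1.2 h1.1)
  · intro b _
    refine ⟨⟨(b.1.2, b.1.1), ?_⟩, mem_univ _, rfl⟩
    have := b.2
    show (b.1.2 : ℕ) + (b.1.1 : ℕ) + 3 ≤ D
    omega
  · intro q _
    rfl

theorem syy_val (m : ℕ) : 6 * (∑ i ∈ range m, ∑ j ∈ range (m - i), j) + m = m ^ 3 := by
  have h3 : ∀ m : ℕ, 2 * ∑ i ∈ range (m + 1), (m - i) = m * (m + 1) := by
    intro m
    have h4 := Finset.sum_range_reflect (fun i => i) (m + 1)
    simp only [Nat.add_sub_cancel] at h4
    have h5 : ∑ i ∈ range (m + 1), (m - i) = ∑ i ∈ range (m + 1), i := by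
      rw [← h4]
    rw [h5, mul_comm 2, Finset.sum_range_id_mul_two]
    simp [mul_comm]
  induction m with
  | zero => simp
  | succ m ih =>
    have h1 : ∀ i ∈ range (m + 1), ∑ j ∈ range (m + 1 - i), j =
        ∑ j ∈ range (m - i), j + (m - i) := by
      intro i hi
      rw [mem_range] at hi
      have h2 : m + 1 - i = (m - i) + 1 := by omega
      rw [h2, sum_range_succ]
    have h5 := h3 m
    rw [sum_congr rfl h1, sum_add_distrib]
    have h6 : ∑ i ∈ range (m + 1), ∑ j ∈ range (m - i), j =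
        ∑ i ∈ range m, ∑ j ∈ range (m - i), j := by
      rw [sum_range_succ, Nat.sub_self, sum_range_zero, add_zero]
    rw [h6]
    nlinarith

theorem syy_eq {D : ℕ} (hD : 3 ≤ D) :
    (syy D : ℝ) + Fintype.card (Jdx D) = Fintype.card (Jdx D) * D / 3 := by
  obtain ⟨m, rfl⟩ : ∃ m, D = m + 2 := ⟨D - 2, by omega⟩
  have h1 := card_jdx m
  have h2 := syy_val m
  rw [← syy_rec] at h2
  have h1' : (2 : ℝ) * Fintype.card (Jdx (m + 2)) = (m + 1) * m := by exact_mod_cast h1
  have h2' : (6 : ℝ) * syy (m + 2) + m = m ^ 3 := by exact_mod_cast h2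
  push_cast
  have h3 : (Fintype.card (Jdx (m + 2)) : ℝ) = (m + 1) * m / 2 := by linarith
  rw [h3]
  linear_combination h2' / 6

/-- a lower bound for the integral -/
theorem low {D : ℕ} (hD : 3 ≤ D) : ∃ B : ℝ, ∀ (c : Idx D → ℂ) (X Y A ε h : ℝ), 1 ≤ X → 1 ≤ Y →
    1 ≤ A → (∀ p, ‖c p‖ * (X ^ px p * Y ^ py p) ≤ A) → A ^ (1 - ε) ≤ ‖c (iy D)‖ * Y ^ D →
    (∃ x : ℂ, (sl c x).Separable) →
    (Fintype.card (Jdx D) + (D - 2) * Fintype.card (Jdx D) * ε) * Real.log A -
      Fintype.card (Jdx D) * D / 3 * (Real.log X + Real.log Y) + B ≤ h →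
    ENNReal.ofReal (Real.exp (-2 * h)) ≤ ∫⁻ x, ig c x := by
  obtain ⟨κ, hκ, hv⟩ := vol_lower hD
  set g : ℝ := (Fintype.card (Jdx D) : ℝ) with hg
  have hg0 : 0 ≤ g := Nat.cast_nonneg _
  set cI : ℝ := (Fintype.card (Idx D) : ℝ) with hcI
  have hcard : (1 : ℝ) ≤ cI := by
    rw [hcI]
    exact_mod_cast card_pos_idx D
  have hDR : (3 : ℝ) ≤ D := by exact_mod_cast hD
  have hD0 : (0 : ℝ) < D := by linarith
  have hD1 : ((D - 1 : ℕ) : ℝ) = D - 1 := by
    rw [Nat.cast_sub (by omega)]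
    simp
  refine ⟨-(1 / 2) * Real.log κ + g / 2 * Real.log D + g * (D - 1) * Real.log cI,
    fun c X Y M ε h hX hY hM hc ha hs hh => ?_⟩
  have hX0 : 0 < X := by linarith
  have hY0 : 0 < Y := by linarith
  have hM0 : 0 < M := by linarith
  have hX' : (X : ℂ) ≠ 0 := Complex.ofReal_ne_zero.2 hX0.ne'
  have hY' : (Y : ℂ) ≠ 0 := Complex.ofReal_ne_zero.2 hY0.ne'
  have hpos' : 0 < ‖c (iy D)‖ * Y ^ D := lt_of_lt_of_le (by positivity) ha
  have hpos : 0 < ‖c (iy D)‖ := pos_of_mul_pos_left hpos' (by positivity)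
  have hc0 : c (iy D) ≠ 0 := norm_pos_iff.1 hpos
  have hiy : ‖scl X Y c (iy D)‖ = ‖c (iy D)‖ * Y ^ D := by
    rw [iy_scl, norm_mul, norm_pow, Complex.norm_real, Real.norm_of_nonneg hY0.le]
  have hM2 : ∀ p, ‖scl X Y c p‖ ≤ M := by
    intro p
    unfold scl
    rw [norm_mul, norm_mul, norm_pow, norm_pow, Complex.norm_real, Complex.norm_real,
      Real.norm_of_nonneg hX0.le, Real.norm_of_nonneg hY0.le]
    exact hc p
  have h1 := hv (scl X Y c) M hM2 (by
    rw [iy_scl]
    exact mul_ne_zero hc0 (pow_ne_zero _ hY')) (sep_scl hX0.ne' hY0.ne' c hs)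
  rw [hiy] at h1
  set a : ℝ := ‖c (iy D)‖ * Y ^ D with haa
  clear_value a
  set b : ℝ := (a ^ 2 * (D * ((cI * (M / a)) ^ (D - 1)) ^ 2)) ^ Fintype.card (Jdx D) with hb
  have hb0 : 0 < b := by positivity
  set r : ℝ := X ^ (2 * sxx D) * Y ^ (2 * syy D) * Y ^ (2 * Fintype.card (Jdx D)) with hr
  have hr0 : 0 < r := by positivity
  have h2 : ∫⁻ x, ig c x = ENNReal.ofReal (X ^ (2 * Fintype.card (Jdx D)) * r) *
      ∫⁻ x, ig (scl X Y c) x := by
    rw [int_scl hX0, lintegral_congr fun x => ig_scl hX0 hY0 c hc0 x,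
      lintegral_const_mul' _ _ ENNReal.ofReal_ne_top, ← hr,
      ENNReal.ofReal_mul (p := X ^ (2 * Fintype.card (Jdx D))) (by positivity), mul_assoc]
  rw [h2]
  refine le_trans ?_ (mul_le_mul_right h1 _)
  rw [← ENNReal.ofReal_mul (by positivity)]
  refine ENNReal.ofReal_le_ofReal ?_
  have hlow : 0 < X ^ (2 * Fintype.card (Jdx D)) * r * (κ / b) := by positivity
  rw [← Real.le_log_iff_exp_le hlow]
  have hlb : Real.log b = g * (2 * Real.log a + (Real.log D + 2 * ((D - 1) *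
        (Real.log cI + (Real.log M - Real.log a))))) := by
    rw [hb, Real.log_pow, Real.log_mul (by positivity) (by positivity),
      Real.log_mul (by positivity) (by positivity), Real.log_pow, Real.log_pow, Real.log_pow,
      Real.log_mul (by positivity) (by positivity), Real.log_div (by positivity) (by positivity),
      hD1]
    push_cast
    ring
  have hlr : Real.log r = 2 * sxx D * Real.log X + 2 * (syy D + g) * Real.log Y := by
    rw [hr, Real.log_mul (by positivity) (by positivity),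
      Real.log_mul (by positivity) (by positivity), Real.log_pow, Real.log_pow, Real.log_pow]
    push_cast
    rw [← hg]
    ring
  have hla : (1 - ε) * Real.log M ≤ Real.log a := by
    rw [← Real.log_rpow hM0]
    exact Real.log_le_log (by positivity) ha
  have hsy := syy_eq hD
  rw [← hg] at hsy
  have hsx : (sxx D : ℝ) + g = g * D / 3 := by
    rw [sxx_syy]
    exact hsy
  rw [Real.log_mul (by positivity) (by positivity), Real.log_mul (by positivity) hr0.ne',
    Real.log_div hκ.ne' hb0.ne', hlb, hlr, Real.log_pow]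
  push_cast
  rw [← hg]
  have hgD : 0 ≤ g * ((D : ℝ) - 2) := mul_nonneg hg0 (by linarith)
  have h3 := mul_le_mul_of_nonneg_left hla hgD
  have h4 : (sxx D : ℝ) = g * D / 3 - g := by linarith
  have h5 : (syy D : ℝ) = g * D / 3 - g := by linarith
  rw [h4, h5]
  nlinarith [h3, hh]

end Pool.Agent.Helper53.WP
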