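import Pool.Agent.Helper53.AC.Generic
import Pool.Graph.R_pool_sql_team_seeded_c8625f6e.K4H5.PC.Rad

/-!
# Few members of a pencil have few nodes
-/

set_option autoImplicit false

open Polynomial Finset

namespace Pool.Agent.Helper53.WP

open Pool.Agent.K4H5.PC Pool.Agent.Helper53.AC

/-- `p` is an odd prime, and modulo `p` the projective curve of degree `D` with the coefficients `c` has exactly
one singular point, which is a node (and the line at infinity is transversal to the curve). -/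
def Node {D : ℕ} (c : Idx D → ℤ) (p : ℕ) : Prop :=
  p ≠ 2 ∧ ∃ _ : Fact p.Prime, OneNode fun q => ((c q : ℤ) : AlgebraicClosure (ZMod p))

/-- the product of the primes with exactly one node -/
noncomputable def nodeProd {D : ℕ} (c : Idx D → ℤ) : ℕ := ∏ᶠ p ∈ {p | Node c p}, p

theorem Node.prime {D : ℕ} {c : Idx D → ℤ} {p : ℕ} (h : Node c p) : p.Prime := by
  obtain ⟨-, h, -⟩ := h
  exact h.out

section

variable {n : ℕ}

theorem node_of (hn : 1 ≤ n) (c : Idx (n + 1) → ℤ) (t : ℤ) {p : ℕ} (hp : p.Prime)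
    (h1 : ¬ (p : ℤ) ∣ 2 * mm c) (h2 : (p : ℤ) ∣ dP (sh c t)) : Node (sh c t) p := by
  have hF : Fact p.Prime := ⟨hp⟩
  have hp2 : p ≠ 2 := by
    rintro rfl
    exact h1 (Dvd.intro _ rfl)
  refine ⟨hp2, hF, ?_⟩
  have : CharP (AlgebraicClosure (ZMod p)) p :=
    charP_of_injective_algebraMap (algebraMap (ZMod p) (AlgebraicClosure (ZMod p))).injective p
  set φ : ℤ →+* AlgebraicClosure (ZMod p) := Int.castRingHom _ with hφ
  have hm : φ (mm c) ≠ 0 := by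
    intro h
    rw [hφ, eq_intCast, CharP.intCast_eq_zero_iff (AlgebraicClosure (ZMod p)) p] at h
    exact h1 (h.mul_left _)
  have hx : φ (dP (sh c t)) = 0 := by
    rw [hφ, eq_intCast, CharP.intCast_eq_zero_iff (AlgebraicClosure (ZMod p)) p]
    exact h2
  rw [mm_map] at hm
  rw [dP_map, sh_map] at hx
  have h3 : (fun q => ((sh c t q : ℤ) : AlgebraicClosure (ZMod p))) = sh (fun q => φ (c q)) (φ t) :=
    sh_map φ c t
  rw [h3]
  exact oneNode_of hn _ hm _ hx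

theorem of_node (hn : 1 ≤ n) (c : Idx (n + 1) → ℤ) (t : ℤ) {p : ℕ} (h : Node (sh c t) p) :
    (p : ℤ) ∣ mm c * dP (sh c t) := by
  obtain ⟨-, hF, hN⟩ := h
  have : CharP (AlgebraicClosure (ZMod p)) p :=
    charP_of_injective_algebraMap (algebraMap (ZMod p) (AlgebraicClosure (ZMod p))).injective p
  set φ : ℤ →+* AlgebraicClosure (ZMod p) := Int.castRingHom _ with hφ
  have hz : ∀ a : ℤ, φ a = 0 ↔ (p : ℤ) ∣ a := fun a => by
    rw [hφ, eq_intCast, CharP.intCast_eq_zero_iff (AlgebraicClosure (ZMod p)) p]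
  by_cases hm : φ (mm c) = 0
  · exact ((hz _).1 hm).mul_right _
  · refine Dvd.dvd.mul_left ((hz _).1 ?_) _
    rw [mm_map] at hm
    rw [dP_map, sh_map]
    obtain ⟨-, x, y, hs, -, -⟩ := hN
    have h3 : (fun q => ((sh c t q : ℤ) : AlgebraicClosure (ZMod p))) =
        sh (fun q => φ (c q)) (φ t) := sh_map φ c t
    rw [h3] at hs
    exact dP_of_sing hn _ hm _ x y hs

theorem node_finite (hn : 1 ≤ n) (c : Idx (n + 1) → ℤ) (hm : mm c ≠ 0) (t : ℤ)
    (hd : dP (sh c t) ≠ 0) : {p | Node (sh c t) p}.Finite := by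
  refine Set.Finite.subset ((mm c * dP (sh c t)).natAbs.primeFactors.finite_toSet) fun p hp => ?_
  rw [Finset.mem_coe, Nat.mem_primeFactors]
  exact ⟨Node.prime hp, Int.natCast_dvd.1 (of_node hn c t hp),
    Int.natAbs_ne_zero.2 (mul_ne_zero hm hd)⟩

end

theorem nodeProd_eq {D : ℕ} {c : Idx D → ℤ} (h : {p | Node c p}.Finite) :
    nodeProd c = ∏ p ∈ h.toFinset, p := finprod_mem_eq_finite_toFinset_prod _ h

theorem nodeProd_pos {D : ℕ} {c : Idx D → ℤ} (h : {p | Node c p}.Finite) : 0 < nodeProd c := by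
  rw [nodeProd_eq h]
  exact Finset.prod_pos fun p hp => (Node.prime (h.mem_toFinset.1 hp)).pos

theorem nodeProd_dvd {D : ℕ} {c : Idx D → ℤ} (h : {p | Node c p}.Finite) {N : ℕ}
    (hN : ∀ p, Node c p → p ∣ N) : nodeProd c ∣ N := by
  rw [nodeProd_eq h]
  exact Finset.prod_primes_dvd N (fun p hp => (Node.prime (h.mem_toFinset.1 hp)).prime)
    fun p hp => hN p (h.mem_toFinset.1 hp)

theorem vl_aeval {ι : Type} (c : ι → ℤ) (P : MvPolynomial ι ℤ) : vl c P = MvPolynomial.aeval c P := by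
  unfold vl
  rw [MvPolynomial.coe_eval₂Hom, MvPolynomial.aeval_def]
  congr 1

theorem size_of {n : ℕ} (F : (Idx (n + 1) → ℤ) → ℤ) (P : MvPolynomial (Idx (n + 1)) ℤ)
    (h : ∀ c, F c = vl c P) : ∃ K A : ℕ, ∀ c : Idx (n + 1) → ℤ, ∀ B : ℕ, 1 ≤ B →
      (∀ i, |c i| ≤ B) → |F c| ≤ K * (B : ℤ) ^ A := by
  obtain ⟨K, A, hb⟩ := eval_bound P
  refine ⟨K, A, fun c B hB hc => ?_⟩
  rw [h, vl_aeval]
  exact hb c B hB hc

theorem cP_natDegree {n : ℕ} (hn : 1 ≤ n) (c : Idx (n + 1) → ℤ) (hm : mm c ≠ 0) :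
    (cP c).natDegree = n ^ 2 := by
  classical
  have hinj : Function.Injective (Int.castRingHom ℂ) := Int.cast_injective
  have hm' : mm (fun p => Int.castRingHom ℂ (c p)) ≠ 0 := by
    rw [← mm_map, Ne, map_eq_zero_iff _ hinj]
    exact hm
  obtain ⟨h1, h2, h3, -, -, -⟩ := mm_factors _ hm'
  have h4 := cP_deg hn _ h1 h2 h3
  rwa [← cP_map, natDegree_map_eq_of_injective hinj] at h4

/-- **The members of a pencil with few nodes.** -/
theorem pencil {n : ℕ} (hn : 1 ≤ n) {ρ δ K₁ : ℝ} (hρ : 0 ≤ ρ) (hρ1 : ρ ≤ 1) (hδ : 0 < δ)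
    (hK₁ : 0 ≤ K₁) :
    ∃ K₃ : ℝ, 0 ≤ K₃ ∧ ∀ T : ℕ, 1 ≤ T → ∀ c : Idx (n + 1) → ℤ,
      (∀ i, |c i| ≤ (T : ℤ)) → mm c ≠ 0 → ∀ s : Finset ℤ,
      (∀ t ∈ s, (∀ i, |sh c t i| ≤ (T : ℤ)) ∧
        (dP (sh c t) = 0 ∨ (nodeProd (sh c t) : ℝ) ≤ K₁ * (T : ℝ) ^ ρ)) →
      (s.card : ℝ) ≤ K₃ * (T : ℝ) ^ (ρ + δ) := by
  classical
  obtain ⟨K, A, hr⟩ := size_of (n := n) dP _ dP_univ
  obtain ⟨K', A', hd⟩ := size_of (n := n) mm _ mm_univ
  let A₂ : ℕ := A + A' + 1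
  have hA₂ : (0 : ℝ) < A₂ := by
    have : 0 < A₂ := by omega
    exact_mod_cast this
  let ε : ℝ := δ / A₂
  have hε : 0 < ε := by positivity
  obtain ⟨C₀, hC₀, hcount⟩ := count_away ε hε
  let K₂ : ℝ := K * K₁ * (2 * K')
  have hK₂ : 0 ≤ K₂ := by positivity
  refine ⟨2 * (n ^ 2 : ℕ) * (1 + C₀ * K₁ * K₂ ^ ε), by positivity,
    fun T hT c hcoef hm s hs => ?_⟩
  have hT' : (1 : ℝ) ≤ T := by exact_mod_cast hT
  have hT0 : (0 : ℝ) < T := by linarith
  let M : ℕ := (2 * mm c).natAbs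
  have hM : 1 ≤ M := by
    have := Int.natAbs_pos.2 (mul_ne_zero two_ne_zero hm)
    omega
  have hMle : (M : ℝ) ≤ (2 * K') * (T : ℝ) ^ A' := by
    have h1 := hd c T hT hcoef
    have h3 : ((M : ℕ) : ℤ) = 2 * |mm c| := by
      rw [Int.natCast_natAbs, abs_mul]
      rfl
    have h4 : ((M : ℕ) : ℤ) ≤ 2 * (K' * (T : ℤ) ^ A') := by
      rw [h3]
      exact mul_le_mul_of_nonneg_left h1 (by norm_num)
    have h6 : ((M : ℤ) : ℝ) ≤ ((2 * (K' * (T : ℤ) ^ A') : ℤ) : ℝ) := Int.cast_le.2 h4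
    push_cast at h6
    linarith
  let Z : ℕ := K * T ^ A
  have hZ : (Z : ℝ) = K * (T : ℝ) ^ A := by
    simp only [Z]
    push_cast
    ring
  let Y : ℕ := ⌊K₁ * (T : ℝ) ^ ρ⌋₊
  have hY0 : (Y : ℝ) ≤ K₁ * (T : ℝ) ^ ρ := Nat.floor_le (by positivity)
  have hY1 : (Y : ℝ) ≤ K₁ * T := by
    refine hY0.trans (mul_le_mul_of_nonneg_left ?_ hK₁)
    calc (T : ℝ) ^ ρ ≤ (T : ℝ) ^ (1 : ℝ) := Real.rpow_le_rpow_of_exponent_le hT' hρ1
      _ = T := Real.rpow_one _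
  let S : Finset ℕ := insert 0 ((Finset.Icc 1 Z).filter fun D => away M D ≤ Y)
  have hsS : ∀ t ∈ s, ((cP c).eval t).natAbs ∈ S := by
    intro t ht
    obtain ⟨hct, hN⟩ := hs t ht
    rw [cP_eval]
    by_cases h0 : (dP (sh c t)).natAbs = 0
    · rw [h0]
      exact Finset.mem_insert_self _ _
    · have h0' : dP (sh c t) ≠ 0 := fun h => h0 (Int.natAbs_eq_zero.2 h)
      have hN' := hN.resolve_left h0'
      refine Finset.mem_insert_of_mem ?_
      rw [Finset.mem_filter, Finset.mem_Icc]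
      refine ⟨⟨by omega, ?_⟩, ?_⟩
      · have h1 : |dP (sh c t)| ≤ K * (T : ℤ) ^ A := hr _ T hT hct
        have h2 : (((dP (sh c t)).natAbs : ℕ) : ℤ) ≤ ((Z : ℕ) : ℤ) := by
          rw [Int.natCast_natAbs]
          simp only [Z]
          push_cast
          exact h1
        exact_mod_cast h2
      · have hfin := node_finite hn c hm t h0'
        have h1 : away M (dP (sh c t)).natAbs ∣ nodeProd (sh c t) := by
          rw [nodeProd_eq hfin]
          refine Finset.prod_dvd_prod_of_subset _ _ _ fun p hp => ?_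
          obtain ⟨hp1, hp2⟩ := Finset.mem_filter.1 hp
          rw [Set.Finite.mem_toFinset]
          refine node_of hn c t (Nat.prime_of_mem_primeFactors hp1) ?_ ?_
          · rw [← Int.natCast_dvd] at hp2
            exact hp2
          · exact Int.natCast_dvd.2 (Nat.dvd_of_mem_primeFactors hp1)
        have h2 := Nat.le_of_dvd (nodeProd_pos hfin) h1
        have h3 : nodeProd (sh c t) ≤ Y := Nat.le_floor hN'
        omega
  have hn2 : 1 ≤ n ^ 2 := Nat.pow_pos (by omega)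
  have h1 := count_poly (cP c) (cP_natDegree hn c hm) hn2 S s hsS
  have h2 : (S.card : ℝ) ≤ 1 + C₀ * Y * ((Z : ℝ) * (Y * M)) ^ ε := by
    have h3 : S.card ≤ ((Finset.Icc 1 Z).filter fun D => away M D ≤ Y).card + 1 :=
      Finset.card_insert_le _ _
    have h4 : (S.card : ℝ) ≤ (((Finset.Icc 1 Z).filter fun D => away M D ≤ Y).card : ℝ) + 1 := by
      exact_mod_cast h3
    have h5 := hcount M Z Y hM
    linarith
  have h3 : (Z : ℝ) * (Y * M) ≤ K₂ * (T : ℝ) ^ A₂ := by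
    calc (Z : ℝ) * (Y * M) ≤ (K * (T : ℝ) ^ A) * ((K₁ * T) * ((2 * K') * (T : ℝ) ^ A')) := by
          rw [hZ]
          refine mul_le_mul_of_nonneg_left ?_ (by positivity)
          exact mul_le_mul hY1 hMle (by positivity) (by positivity)
      _ = K₂ * (T : ℝ) ^ A₂ := by
          simp only [K₂, A₂]
          ring
  have h4 : ((Z : ℝ) * (Y * M)) ^ ε ≤ K₂ ^ ε * (T : ℝ) ^ δ := by
    calc ((Z : ℝ) * (Y * M)) ^ ε ≤ (K₂ * (T : ℝ) ^ A₂) ^ ε :=
          Real.rpow_le_rpow (by positivity) h3 hε.le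
      _ = K₂ ^ ε * (T : ℝ) ^ δ := by
          rw [Real.mul_rpow hK₂ (by positivity), ← Real.rpow_natCast, ← Real.rpow_mul hT0.le]
          congr 2
          simp only [ε]
          field_simp
  have h5 : (1 : ℝ) ≤ (T : ℝ) ^ (ρ + δ) := Real.one_le_rpow hT' (by positivity)
  have h6 : (S.card : ℝ) ≤ (1 + C₀ * K₁ * K₂ ^ ε) * (T : ℝ) ^ (ρ + δ) := by
    calc (S.card : ℝ) ≤ 1 + C₀ * Y * ((Z : ℝ) * (Y * M)) ^ ε := h2
      _ ≤ 1 + C₀ * (K₁ * (T : ℝ) ^ ρ) * (K₂ ^ ε * (T : ℝ) ^ δ) := by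
          gcongr
      _ = 1 + C₀ * K₁ * K₂ ^ ε * (T : ℝ) ^ (ρ + δ) := by
          rw [Real.rpow_add hT0]
          ring
      _ ≤ (T : ℝ) ^ (ρ + δ) + C₀ * K₁ * K₂ ^ ε * (T : ℝ) ^ (ρ + δ) := by linarith
      _ = _ := by ring
  calc (s.card : ℝ) ≤ ((2 * n ^ 2 * S.card : ℕ) : ℝ) := by exact_mod_cast h1
    _ = 2 * (n ^ 2 : ℕ) * (S.card : ℝ) := by push_cast; ring
    _ ≤ 2 * (n ^ 2 : ℕ) * ((1 + C₀ * K₁ * K₂ ^ ε) * (T : ℝ) ^ (ρ + δ)) :=
        mul_le_mul_of_nonneg_left h6 (by positivity)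
    _ = _ := by ring

end Pool.Agent.Helper53.WP
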