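import Pool.Agent.Helper53.WP.SZ
import Pool.Agent.Helper53.WP.Low
import Pool.Agent.Helper53.WP.Pencil

/-!
# Frey's inequality for almost all plane curves
-/

set_option autoImplicit false

open Polynomial MeasureTheory Finset
open scoped ENNReal

namespace Pool.Agent.Helper53.WP

open Pool.Agent.K4H5.PC

/-- The integral over `ℂ ^ g`, `g = (D - 1) (D - 2) / 2`, of the sum over all `y` with `f(x_k, y_k) = 0` of
`|det (x_k^i y_k^j)|² / ∏_k |f_y(x_k, y_k)|²`. -/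
noncomputable def period {D : ℕ} (c : Idx D → ℤ) : ℝ≥0∞ := ∫⁻ x, ig (fun p => ((c p : ℤ) : ℂ)) x

/-- The inequality `-(1 / 2) log (period c) ≤ h`. -/
def HeightLe {D : ℕ} (c : Idx D → ℤ) (h : ℝ) : Prop := ENNReal.ofReal (Real.exp (-2 * h)) ≤ period c

/-- All coefficients of `f (X x, Y y)` are at most `A`. -/
noncomputable def coefBox (D A X Y : ℕ) : Finset (Idx D → ℤ) := Fintype.piFinset fun p =>
  Finset.Icc (-((A / (X ^ px p * Y ^ py p) : ℕ) : ℤ)) ((A / (X ^ px p * Y ^ py p) : ℕ) : ℤ)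

theorem card_sym (M : ℕ) : (Finset.Icc (-(M : ℤ)) M).card = 2 * M + 1 := by
  rw [Int.card_Icc]
  omega

theorem mem_coefBox {D A X Y : ℕ} (hX : 1 ≤ X) (hY : 1 ≤ Y) {c : Idx D → ℤ} :
    c ∈ coefBox D A X Y ↔ ∀ p, |c p| * (X ^ px p * Y ^ py p) ≤ A := by
  unfold coefBox
  rw [Fintype.mem_piFinset]
  refine forall_congr' fun p => ?_
  rw [Finset.mem_Icc, ← abs_le, ← Int.natCast_natAbs]
  have h0 : 0 < X ^ px p * Y ^ py p := Nat.mul_pos (Nat.pow_pos hX) (Nat.pow_pos hY)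
  have h1 : (((c p).natAbs : ℤ) ≤ ((A / (X ^ px p * Y ^ py p) : ℕ) : ℤ)) ↔
      (c p).natAbs ≤ A / (X ^ px p * Y ^ py p) := Nat.cast_le
  rw [h1, Nat.le_div_iff_mul_le h0]
  constructor
  · intro h
    exact_mod_cast h
  · intro h
    exact_mod_cast h

section restrict

variable {ι : Type} [Fintype ι] [DecidableEq ι]

theorem restrict (S : ι → Finset ℤ) (i : ι) (s : Finset ℤ) :
    (Fintype.piFinset (Function.update S i s)).card * (S i).card =
      s.card * (Fintype.piFinset S).card := by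
  rw [Fintype.card_piFinset, Fintype.card_piFinset,
    ← Finset.mul_prod_erase univ (fun j => (Function.update S i s j).card) (mem_univ i),
    ← Finset.mul_prod_erase univ (fun j => (S j).card) (mem_univ i)]
  have h1 : ∏ j ∈ univ.erase i, (Function.update S i s j).card = ∏ j ∈ univ.erase i, (S j).card := by
    refine prod_congr rfl fun j hj => ?_
    rw [Function.update_of_ne (ne_of_mem_erase hj)]
  rw [h1, Function.update_self]
  ring

end restrict

theorem sh_zero {D : ℕ} {R : Type} [CommRing R] (c : Idx D → R) : sh c 0 = c := by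
  funext p
  unfold sh
  split_ifs <;> simp

/-- **All plane curves but a few.** -/
theorem main {n : ℕ} (hn : 2 ≤ n) (w κ c₁ : ℝ) (hw : w ≤ 2 / (n + 1))
    (hκ : (Fintype.card (Jdx (n + 1)) : ℝ) * (1 - (n + 1) * w / 3) < κ) :
    ∃ δ : ℝ, 0 < δ ∧ ∃ C : ℝ, ∀ A X Y L : ℕ, 1 ≤ L → 1 ≤ X → 1 ≤ Y → L * X ^ (n + 1) ≤ A →
      L * Y ^ (n + 1) ≤ A → (A : ℝ) ^ w ≤ X * Y → ∃ Exc : Finset (Idx (n + 1) → ℤ),
        (Exc.card : ℝ) ≤ C * (L : ℝ) ^ (-δ) * (coefBox (n + 1) A X Y).card ∧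
        ∀ c ∈ coefBox (n + 1) A X Y, c ∉ Exc → mm c ≠ 0 ∧ dP c ≠ 0 ∧
          HeightLe c (κ * Real.log (nodeProd c) + c₁) := by
  classical
  set g : ℝ := (Fintype.card (Jdx (n + 1)) : ℝ) with hg
  have hg1 : 1 ≤ g := by
    obtain ⟨m, rfl⟩ : ∃ m, n = m + 1 := ⟨n - 1, by omega⟩
    have h1 := card_jdx m
    have h2 : 0 < Fintype.card (Jdx (m + 1 + 1)) := by
      by_contra hcon
      have h3 : Fintype.card (Jdx (m + 2)) = 0 := by
        show Fintype.card (Jdx (m + 1 + 1)) = 0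
        omega
      rw [h3, mul_zero] at h1
      have h4 : (m + 1) * m ≠ 0 := mul_ne_zero (by omega) (by omega)
      exact h4 h1.symm
    rw [hg]
    exact_mod_cast h2
  have hnR : (2 : ℝ) ≤ n := by exact_mod_cast hn
  set σ : ℝ := g * (1 - (n + 1) * w / 3) with hσ
  have hσ0 : 0 < σ := by
    have h1 : (n + 1) * w ≤ 2 := by
      rw [le_div_iff₀ (by linarith)] at hw
      linarith
    have h2 : 0 < 1 - (n + 1) * w / 3 := by linarith
    positivity
  have hκ0 : 0 < κ := hσ0.trans hκ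
  set ρ : ℝ := (σ + κ) / (2 * κ) with hρ
  have hρ0 : 0 < ρ := by positivity
  have hρ1 : ρ < 1 := by
    rw [hρ, div_lt_one (by positivity)]
    linarith
  have hκρ : κ * ρ = (σ + κ) / 2 := by
    rw [hρ]
    field_simp
  set ε : ℝ := min (1 / 2) ((κ - σ) / (2 * (n * g))) with hε
  have hng : 0 < n * g := by positivity
  have hε0 : 0 < ε := lt_min (by norm_num) (div_pos (by linarith) (by positivity))
  have hε2 : ε ≤ 1 / 2 := min_le_left _ _
  have hεκ : n * g * ε ≤ (κ - σ) / 2 := by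
    have h1 : ε ≤ (κ - σ) / (2 * (n * g)) := min_le_right _ _
    calc n * g * ε ≤ n * g * ((κ - σ) / (2 * (n * g))) := mul_le_mul_of_nonneg_left h1 hng.le
      _ = (κ - σ) / 2 := by
        field_simp
  obtain ⟨B, hB⟩ := low (D := n + 1) (by omega)
  set K₁ : ℝ := Real.exp ((B - c₁) / κ) with hK₁
  have hK₁0 : 0 < K₁ := Real.exp_pos _
  set δ₁ : ℝ := (1 - ρ) / 2 with hδ₁
  have hδ₁0 : 0 < δ₁ := by
    rw [hδ₁]
    linarith
  have hρδ : ρ + δ₁ = 1 - δ₁ := by
    rw [hδ₁]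
    ring
  obtain ⟨K₃, hK₃, hpen⟩ := pencil (n := n) (by omega) hρ0.le hρ1.le hδ₁0 hK₁0.le
  obtain ⟨x₁, hx₁⟩ := mm_wit hn
  rw [mm_univ] at hx₁
  obtain ⟨τ₁, hτ₁⟩ := sz _ x₁ hx₁
  obtain ⟨x₂, hx₂⟩ := ww_wit (by omega : 1 ≤ n)
  rw [ww_univ] at hx₂
  obtain ⟨τ₂, hτ₂⟩ := sz _ x₂ hx₂
  set δ : ℝ := min ε δ₁ with hδ
  have hδ0 : 0 < δ := lt_min hε0 hδ₁0
  have hδε : δ ≤ ε := min_le_left _ _
  have hδδ : δ ≤ δ₁ := min_le_right _ _
  refine ⟨δ, hδ0, τ₁ + τ₂ + 3 + K₃, fun A X Y L hL hX hY hLX hLY hXY => ?_⟩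
  have hLR : (1 : ℝ) ≤ L := by exact_mod_cast hL
  have hL0 : (0 : ℝ) < L := by linarith
  have hXR : (1 : ℝ) ≤ X := by exact_mod_cast hX
  have hYR : (1 : ℝ) ≤ Y := by exact_mod_cast hY
  have hX0 : (0 : ℝ) < X := by linarith
  have hY0 : (0 : ℝ) < Y := by linarith
  have hLA : L ≤ A := le_trans (Nat.le_mul_of_pos_right L (Nat.pow_pos hX)) hLX
  have hA : 1 ≤ A := hL.trans hLA
  have hAR : (1 : ℝ) ≤ A := by exact_mod_cast hA
  have hA0 : (0 : ℝ) < A := by linarith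
  have hLAR : (L : ℝ) ≤ A := by exact_mod_cast hLA
  set M : Idx (n + 1) → ℕ := fun p => A / (X ^ px p * Y ^ py p) with hM
  set S : Idx (n + 1) → Finset ℤ := fun p => Finset.Icc (-(M p : ℤ)) (M p : ℤ) with hS
  have hbox : coefBox (n + 1) A X Y = Fintype.piFinset S := rfl
  have hML : ∀ p, L ≤ M p := by
    intro p
    have h0 : 0 < X ^ px p * Y ^ py p := Nat.mul_pos (Nat.pow_pos hX) (Nat.pow_pos hY)
    show L ≤ A / (X ^ px p * Y ^ py p)
    rw [Nat.le_div_iff_mul_le h0]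
    have h1 := pxy p
    rcases le_total X Y with h2 | h2
    · calc L * (X ^ px p * Y ^ py p) ≤ L * (Y ^ px p * Y ^ py p) :=
            Nat.mul_le_mul_left _ (Nat.mul_le_mul_right _ (Nat.pow_le_pow_left h2 _))
        _ = L * Y ^ (px p + py p) := by rw [pow_add]
        _ ≤ L * Y ^ (n + 1) := Nat.mul_le_mul_left _ (Nat.pow_le_pow_right hY h1)
        _ ≤ A := hLY
    · calc L * (X ^ px p * Y ^ py p) ≤ L * (X ^ px p * X ^ py p) :=
            Nat.mul_le_mul_left _ (Nat.mul_le_mul_left _ (Nat.pow_le_pow_left h2 _))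
        _ = L * X ^ (px p + py p) := by rw [pow_add]
        _ ≤ L * X ^ (n + 1) := Nat.mul_le_mul_left _ (Nat.pow_le_pow_right hX h1)
        _ ≤ A := hLX
  have hMA : ∀ p, M p ≤ A := fun p => Nat.div_le_self _ _
  have hScard : ∀ p, (S p).card = 2 * M p + 1 := fun p => card_sym _
  have hSL : ∀ p, L ≤ (S p).card := fun p => by
    rw [hScard]
    have := hML p
    omega
  set V : ℝ := ((coefBox (n + 1) A X Y).card : ℝ) with hV
  have hVprod : (coefBox (n + 1) A X Y).card = ∏ p, (S p).card := by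
    rw [hbox, Fintype.card_piFinset]
  have hV0 : 0 ≤ V := Nat.cast_nonneg _
  have hcA : ∀ c ∈ coefBox (n + 1) A X Y, ∀ p, |c p| ≤ (A : ℤ) := by
    intro c hc p
    rw [hbox, Fintype.mem_piFinset] at hc
    have h1 := hc p
    rw [Finset.mem_Icc, ← abs_le] at h1
    have h2 : ((M p : ℕ) : ℤ) ≤ (A : ℤ) := by exact_mod_cast hMA p
    exact h1.trans h2
  -- the four exceptional sets
  set Z₁ := (coefBox (n + 1) A X Y).filter fun c => mm c = 0 with hZ₁
  set Z₂ := (coefBox (n + 1) A X Y).filter fun c => ww c = 0 with hZ₂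
  set Z₃ := (coefBox (n + 1) A X Y).filter fun c =>
    |((c (iy (n + 1)) : ℤ) : ℝ)| * (Y : ℝ) ^ (n + 1) < (A : ℝ) ^ (1 - ε) with hZ₃
  set Z₄ := (coefBox (n + 1) A X Y).filter fun c => mm c ≠ 0 ∧
    (dP c = 0 ∨ (nodeProd c : ℝ) ≤ K₁ * (A : ℝ) ^ ρ) with hZ₄
  have hLδ : (L : ℝ)⁻¹ ≤ (L : ℝ) ^ (-δ) := by
    rw [← Real.rpow_neg_one]
    exact Real.rpow_le_rpow_of_exponent_le hLR (by linarith)
  have b₁ : (Z₁.card : ℝ) ≤ τ₁ * (L : ℝ) ^ (-δ) * V := by
    have h1 := hτ₁ S L hL hSL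
    have h2 : Z₁ = (Fintype.piFinset S).filter fun c => vl c (mm (un (n + 1))) = 0 := by
      rw [hZ₁, hbox]
      refine filter_congr fun c _ => ?_
      rw [← mm_univ]
    rw [← h2, ← hVprod] at h1
    have h3 : (Z₁.card : ℝ) * L ≤ τ₁ * V := by
      rw [hV]
      exact_mod_cast h1
    calc (Z₁.card : ℝ) = Z₁.card * L * (L : ℝ)⁻¹ := by field_simp
      _ ≤ τ₁ * V * (L : ℝ) ^ (-δ) := mul_le_mul h3 hLδ (by positivity) (by positivity)
      _ = _ := by ring
  have b₂ : (Z₂.card : ℝ) ≤ τ₂ * (L : ℝ) ^ (-δ) * V := by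
    have h1 := hτ₂ S L hL hSL
    have h2 : Z₂ = (Fintype.piFinset S).filter fun c => vl c (ww (un (n + 1))) = 0 := by
      rw [hZ₂, hbox]
      refine filter_congr fun c _ => ?_
      rw [← ww_univ]
    rw [← h2, ← hVprod] at h1
    have h3 : (Z₂.card : ℝ) * L ≤ τ₂ * V := by
      rw [hV]
      exact_mod_cast h1
    calc (Z₂.card : ℝ) = Z₂.card * L * (L : ℝ)⁻¹ := by field_simp
      _ ≤ τ₂ * V * (L : ℝ) ^ (-δ) := mul_le_mul h3 hLδ (by positivity) (by positivity)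
      _ = _ := by ring
  have b₃ : (Z₃.card : ℝ) ≤ 3 * (L : ℝ) ^ (-δ) * V := by
    set y : ℝ := (Y : ℝ) ^ (n + 1) with hy
    have hy0 : 0 < y := by positivity
    set R : ℕ := ⌊(A : ℝ) ^ (1 - ε) / y⌋₊ with hR
    have hR' : (R : ℝ) ≤ (A : ℝ) ^ (1 - ε) / y := Nat.floor_le (by positivity)
    set s := Finset.Icc (-(R : ℤ)) (R : ℤ) with hs
    have h1 : Z₃ ⊆ Fintype.piFinset (Function.update S (iy (n + 1)) s) := by
      intro c hc
      rw [hZ₃, mem_filter, hbox, Fintype.mem_piFinset] at hc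
      rw [Fintype.mem_piFinset]
      intro p
      by_cases hp : p = iy (n + 1)
      · subst hp
        rw [Function.update_self, hs, Finset.mem_Icc, ← abs_le]
        have h2 : |((c (iy (n + 1)) : ℤ) : ℝ)| ≤ (A : ℝ) ^ (1 - ε) / y := by
          rw [le_div_iff₀ hy0]
          exact hc.2.le
        have h3 : (((c (iy (n + 1))).natAbs : ℕ) : ℝ) ≤ (A : ℝ) ^ (1 - ε) / y := by
          rw [Nat.cast_natAbs, Int.cast_abs]
          exact h2
        have h4 : (c (iy (n + 1))).natAbs ≤ R := Nat.le_floor h3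
        rw [← Int.natCast_natAbs]
        exact_mod_cast h4
      · rw [Function.update_of_ne hp]
        exact hc.1 p
    have h2 := restrict S (iy (n + 1)) s
    have h3 : s.card = 2 * R + 1 := card_sym R
    rw [h3, hScard, ← hbox] at h2
    have h4 : (Z₃.card : ℝ) * (2 * M (iy (n + 1)) + 1) ≤ (2 * R + 1) * V := by
      have h5 : Z₃.card * (2 * M (iy (n + 1)) + 1) ≤ (2 * R + 1) * (coefBox (n + 1) A X Y).card := by
        rw [← h2]
        exact Nat.mul_le_mul_right _ (card_le_card h1)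
      rw [hV]
      exact_mod_cast h5
    have h5 : (A : ℝ) / y ≤ 2 * M (iy (n + 1)) + 1 := by
      have e1 : M (iy (n + 1)) = A / Y ^ (n + 1) := by
        show A / (X ^ px (iy (n + 1)) * Y ^ py (iy (n + 1))) = _
        have e2 : px (iy (n + 1)) = 0 := rfl
        have e3 : py (iy (n + 1)) = n + 1 := rfl
        rw [e2, e3, pow_zero, one_mul]
      have h6 := Nat.lt_floor_add_one ((A : ℝ) / y)
      have h7 : ⌊(A : ℝ) / y⌋₊ = A / Y ^ (n + 1) := by
        rw [hy]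
        exact_mod_cast Nat.floor_div_eq_div (K := ℝ) A (Y ^ (n + 1))
      rw [h7, ← e1] at h6
      have h8 : (0 : ℝ) ≤ M (iy (n + 1)) := Nat.cast_nonneg _
      linarith
    have h6 : (Z₃.card : ℝ) * ((A : ℝ) / y) ≤ (2 * ((A : ℝ) ^ (1 - ε) / y) + 1) * V := by
      calc (Z₃.card : ℝ) * ((A : ℝ) / y) ≤ Z₃.card * (2 * M (iy (n + 1)) + 1) :=
            mul_le_mul_of_nonneg_left h5 (Nat.cast_nonneg _)
        _ ≤ (2 * R + 1) * V := h4
        _ ≤ _ := mul_le_mul_of_nonneg_right (by linarith) hV0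
    have h7 : (2 * ((A : ℝ) ^ (1 - ε) / y) + 1) ≤ (3 * (L : ℝ) ^ (-δ)) * ((A : ℝ) / y) := by
      have e1 : (A : ℝ) ^ (1 - ε) = A * (A : ℝ) ^ (-ε) := by
        rw [sub_eq_add_neg, Real.rpow_add hA0, Real.rpow_one]
      have e2 : (A : ℝ) ^ (-ε) ≤ (L : ℝ) ^ (-δ) := by
        calc (A : ℝ) ^ (-ε) ≤ (L : ℝ) ^ (-ε) :=
              Real.rpow_le_rpow_of_nonpos hL0 hLAR (by linarith)
          _ ≤ (L : ℝ) ^ (-δ) := Real.rpow_le_rpow_of_exponent_le hLR (by linarith)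
      have e3 : (1 : ℝ) ≤ (L : ℝ) ^ (-δ) * ((A : ℝ) / y) := by
        have e4 : (L : ℝ) ≤ (A : ℝ) / y := by
          rw [le_div_iff₀ hy0, hy]
          exact_mod_cast hLY
        calc (1 : ℝ) = (L : ℝ)⁻¹ * L := (inv_mul_cancel₀ hL0.ne').symm
          _ ≤ (L : ℝ) ^ (-δ) * ((A : ℝ) / y) := mul_le_mul hLδ e4 hL0.le (by positivity)
      have e5 : (A : ℝ) ^ (1 - ε) / y ≤ (L : ℝ) ^ (-δ) * ((A : ℝ) / y) := by
        rw [e1, mul_comm (A : ℝ), mul_div_assoc]
        exact mul_le_mul_of_nonneg_right e2 (by positivity)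
      linarith
    have hAy : 0 < (A : ℝ) / y := by positivity
    refine le_of_mul_le_mul_right (a := (A : ℝ) / y) ?_ hAy
    calc (Z₃.card : ℝ) * ((A : ℝ) / y) ≤ (2 * ((A : ℝ) ^ (1 - ε) / y) + 1) * V := h6
      _ ≤ ((3 * (L : ℝ) ^ (-δ)) * ((A : ℝ) / y)) * V := mul_le_mul_of_nonneg_right h7 hV0
      _ = _ := by ring
  have b₄ : (Z₄.card : ℝ) ≤ K₃ * (L : ℝ) ^ (-δ) * V := by
    set m : ℕ := ⌊K₃ * (A : ℝ) ^ (1 - δ₁)⌋₊ with hm
    have hm' : (m : ℝ) ≤ K₃ * (A : ℝ) ^ (1 - δ₁) := Nat.floor_le (by positivity)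
    set f : (Idx (n + 1) → ℤ) → (Idx (n + 1) → ℤ) := fun c => Function.update c (i0 (n + 1)) 0
      with hf
    have h1 : Z₄.card ≤ m * (Z₄.image f).card := by
      refine Finset.card_le_mul_card_image Z₄ m fun a ha => ?_
      obtain ⟨c₀, hc₀, rfl⟩ := Finset.mem_image.1 ha
      set F := Z₄.filter fun c => f c = f c₀ with hF
      have hsh : ∀ c ∈ F, sh c₀ (c (i0 (n + 1)) - c₀ (i0 (n + 1))) = c := by
        intro c hc
        rw [hF, mem_filter] at hc
        funext p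
        unfold sh
        by_cases hp : p = i0 (n + 1)
        · rw [if_pos hp, hp]
          ring
        · rw [if_neg hp, add_zero]
          have h2 := congrFun hc.2 p
          rw [hf] at h2
          simp only [Function.update_of_ne hp] at h2
          exact h2.symm
      have h2 : F.card = (F.image fun c => c (i0 (n + 1)) - c₀ (i0 (n + 1))).card := by
        rw [Finset.card_image_of_injOn]
        intro c hc c' hc' h
        simp only at h
        rw [← hsh c hc, ← hsh c' hc', h]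
      have hc₀' := hc₀
      rw [hZ₄, mem_filter] at hc₀'
      have h3 := hpen A hA c₀ (hcA c₀ hc₀'.1) hc₀'.2.1
        (F.image fun c => c (i0 (n + 1)) - c₀ (i0 (n + 1))) fun t ht => by
          obtain ⟨c, hc, rfl⟩ := Finset.mem_image.1 ht
          rw [hsh c hc]
          have hc2 := (mem_filter.1 hc).1
          rw [hZ₄, mem_filter] at hc2
          exact ⟨hcA c hc2.1, hc2.2.2⟩
      rw [hρδ] at h3
      rw [h2]
      exact Nat.le_floor h3
    have h2 : Z₄.image f ⊆ Fintype.piFinset (Function.update S (i0 (n + 1)) {0}) := by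
      intro a ha
      obtain ⟨c, hc, rfl⟩ := Finset.mem_image.1 ha
      rw [hZ₄, mem_filter, hbox, Fintype.mem_piFinset] at hc
      rw [Fintype.mem_piFinset]
      intro p
      by_cases hp : p = i0 (n + 1)
      · subst hp
        rw [Function.update_self]
        show Function.update c (i0 (n + 1)) 0 (i0 (n + 1)) ∈ _
        rw [Function.update_self]
        exact mem_singleton_self _
      · rw [Function.update_of_ne hp]
        show Function.update c (i0 (n + 1)) 0 p ∈ _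
        rw [Function.update_of_ne hp]
        exact hc.1 p
    have h3 := restrict S (i0 (n + 1)) {0}
    rw [card_singleton, one_mul, hScard, ← hbox] at h3
    have h4 : M (i0 (n + 1)) = A := by
      show A / (X ^ px (i0 (n + 1)) * Y ^ py (i0 (n + 1))) = A
      rw [px_i0, py_i0, pow_zero, pow_zero, one_mul, Nat.div_one]
    rw [h4] at h3
    have h5 : (Z₄.card : ℝ) * (2 * A + 1) ≤ K₃ * (A : ℝ) ^ (1 - δ₁) * V := by
      have h6 : Z₄.card * (2 * A + 1) ≤ m * (coefBox (n + 1) A X Y).card := by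
        rw [← h3, ← mul_assoc]
        exact Nat.mul_le_mul_right _ (h1.trans (Nat.mul_le_mul_left _ (card_le_card h2)))
      have h7 : (Z₄.card : ℝ) * (2 * A + 1) ≤ m * V := by
        rw [hV]
        exact_mod_cast h6
      exact h7.trans (mul_le_mul_of_nonneg_right hm' hV0)
    have h6 : (A : ℝ) ^ (1 - δ₁) ≤ (L : ℝ) ^ (-δ) * (2 * A + 1) := by
      have e1 : (A : ℝ) ^ (1 - δ₁) = (A : ℝ) ^ (-δ₁) * A := by
        rw [sub_eq_add_neg, add_comm, Real.rpow_add hA0, Real.rpow_one]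
      have e2 : (A : ℝ) ^ (-δ₁) ≤ (L : ℝ) ^ (-δ) := by
        calc (A : ℝ) ^ (-δ₁) ≤ (L : ℝ) ^ (-δ₁) :=
              Real.rpow_le_rpow_of_nonpos hL0 hLAR (by linarith)
          _ ≤ (L : ℝ) ^ (-δ) := Real.rpow_le_rpow_of_exponent_le hLR (by linarith)
      rw [e1]
      exact mul_le_mul e2 (by linarith) hA0.le (by positivity)
    have h7 : (0 : ℝ) < 2 * A + 1 := by positivity
    refine le_of_mul_le_mul_right (a := (2 * A + 1 : ℝ)) ?_ h7
    calc (Z₄.card : ℝ) * (2 * A + 1) ≤ K₃ * (A : ℝ) ^ (1 - δ₁) * V := h5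
      _ ≤ K₃ * ((L : ℝ) ^ (-δ) * (2 * A + 1)) * V :=
          mul_le_mul_of_nonneg_right (mul_le_mul_of_nonneg_left h6 hK₃) hV0
      _ = _ := by ring
  refine ⟨Z₁ ∪ (Z₂ ∪ (Z₃ ∪ Z₄)), ?_, fun c hc hcE => ?_⟩
  · have h1 : ((Z₁ ∪ (Z₂ ∪ (Z₃ ∪ Z₄))).card : ℝ) ≤ Z₁.card + (Z₂.card + (Z₃.card + Z₄.card)) := by
      have h2 := (card_union_le Z₁ (Z₂ ∪ (Z₃ ∪ Z₄))).trans (Nat.add_le_add_left
        ((card_union_le Z₂ (Z₃ ∪ Z₄)).trans (Nat.add_le_add_left (card_union_le Z₃ Z₄) _)) _)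
      exact_mod_cast h2
    calc _ ≤ _ := h1
      _ ≤ τ₁ * (L : ℝ) ^ (-δ) * V + (τ₂ * (L : ℝ) ^ (-δ) * V + (3 * (L : ℝ) ^ (-δ) * V +
          K₃ * (L : ℝ) ^ (-δ) * V)) := add_le_add b₁ (add_le_add b₂ (add_le_add b₃ b₄))
      _ = _ := by ring
  · simp only [mem_union, not_or] at hcE
    obtain ⟨k₁, k₂, k₃, k₄⟩ := hcE
    rw [hZ₁, mem_filter, not_and] at k₁
    rw [hZ₂, mem_filter, not_and] at k₂
    rw [hZ₃, mem_filter, not_and] at k₃
    rw [hZ₄, mem_filter, not_and] at k₄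
    have l₁ : mm c ≠ 0 := k₁ hc
    have l₂ : ww c ≠ 0 := k₂ hc
    have l₃ := not_lt.1 (k₃ hc)
    have l₄ : dP c ≠ 0 ∧ K₁ * (A : ℝ) ^ ρ < nodeProd c := by
      have h1 := k₄ hc
      rw [not_and, not_or, not_le] at h1
      exact h1 l₁
    refine ⟨l₁, l₄.1, ?_⟩
    have hpos : (0 : ℝ) < |((c (iy (n + 1)) : ℤ) : ℝ)| * (Y : ℝ) ^ (n + 1) :=
      lt_of_lt_of_le (by positivity) l₃
    have hpos2 : (0 : ℝ) < |((c (iy (n + 1)) : ℤ) : ℝ)| := pos_of_mul_pos_left hpos (by positivity)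
    have hci : ((c (iy (n + 1)) : ℤ) : ℂ) ≠ 0 := by
      rw [Int.cast_ne_zero]
      rintro h
      rw [h] at hpos2
      simp at hpos2
    have hinj : Function.Injective (Int.castRingHom ℂ) := Int.cast_injective
    unfold HeightLe period
    refine hB (fun p => ((c p : ℤ) : ℂ)) X Y A ε _ hXR hYR hAR (fun p => ?_) ?_ ?_ ?_
    · have h1 := (mem_coefBox hX hY).1 hc p
      rw [Complex.norm_intCast]
      exact_mod_cast h1
    · rw [Complex.norm_intCast]
      exact l₃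
    · refine ⟨0, (ww_sep (by omega : 1 ≤ n) (fun p => ((c p : ℤ) : ℂ)) hci).1 ?_⟩
      have h1 := ww_map (Int.castRingHom ℂ) c
      have h2 : ww (fun p => ((c p : ℤ) : ℂ)) = Int.castRingHom ℂ (ww c) := h1.symm
      rw [h2, Ne, map_eq_zero_iff _ hinj]
      exact l₂
    · have hlA : 0 ≤ Real.log A := Real.log_nonneg hAR
      have h1 : w * Real.log A ≤ Real.log X + Real.log Y := by
        rw [← Real.log_mul hX0.ne' hY0.ne', ← Real.log_rpow hA0]
        exact Real.log_le_log (by positivity) hXY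
      have h2 : κ * Real.log (K₁ * (A : ℝ) ^ ρ) ≤ κ * Real.log (nodeProd c) :=
        mul_le_mul_of_nonneg_left (Real.log_le_log (by positivity) l₄.2.le) hκ0.le
      rw [Real.log_mul hK₁0.ne' (by positivity), Real.log_rpow hA0, hK₁, Real.log_exp] at h2
      have h3 : κ * ((B - c₁) / κ + ρ * Real.log A) = (B - c₁) + (κ * ρ) * Real.log A := by
        field_simp
      rw [h3, hκρ] at h2
      rw [← hg]
      have h4 := mul_le_mul_of_nonneg_right hεκ hlA
      have h5 : g * ((n : ℝ) + 1) / 3 * (w * Real.log A) ≤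
          g * ((n : ℝ) + 1) / 3 * (Real.log X + Real.log Y) :=
        mul_le_mul_of_nonneg_left h1 (by positivity)
      have h6 : ε * g * Real.log A ≥ 0 := by positivity
      push_cast
      rw [hσ] at h2 h4
      nlinarith [h2, h4, h5, h6]

end Pool.Agent.Helper53.WP
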