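import Pool.Graph.R_pool_sql_team_seeded_c8625f6e.K4H5.PC.Gen

/-!
# Zeros of a polynomial in a box with different sides
-/

set_option autoImplicit false

open Finset

namespace Pool.Agent.Helper53.WP

open Pool.Agent.K4H5.PC (vl)

theorem sz {ι : Type} [Fintype ι] [DecidableEq ι] (P : MvPolynomial ι ℤ) (x₀ : ι → ℂ)
    (hx : vl x₀ P ≠ 0) :
    ∃ τ : ℕ, ∀ (S : ι → Finset ℤ) (m : ℕ), 1 ≤ m → (∀ i, m ≤ (S i).card) →
      ((Fintype.piFinset S).filter fun c => vl c P = 0).card * m ≤ τ * ∏ i, (S i).card := by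
  classical
  have hP0 : P ≠ 0 := by
    rintro rfl
    exact hx (map_zero _)
  set e := Fintype.equivFin ι with he
  set Q : MvPolynomial ι ℤ := MvPolynomial.map (Int.castRingHom ℤ) P with hQ
  have hQ0 : Q ≠ 0 := by
    rw [hQ, Ne, ← map_zero (MvPolynomial.map (Int.castRingHom ℤ))]
    intro h
    exact hP0 (MvPolynomial.map_injective _ (RingHom.injective_int _) h)
  set Q' : MvPolynomial (Fin (Fintype.card ι)) ℤ := MvPolynomial.rename e Q with hQ'
  have hQ'0 : Q' ≠ 0 := by
    rw [hQ', Ne, ← map_zero (MvPolynomial.rename e)]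
    intro h
    exact hQ0 (MvPolynomial.rename_injective _ e.injective h)
  refine ⟨∑ i, Q'.degreeOf i, fun S m hm hS => ?_⟩
  have h1 := MvPolynomial.schwartz_zippel_sum_degreeOf hQ'0 (fun i => S (e.symm i))
  have h2 : ((Fintype.piFinset S).filter fun c => vl c P = 0).card =
      ((Fintype.piFinset fun i : Fin (Fintype.card ι) => S (e.symm i)).filter
        fun c => MvPolynomial.eval c Q' = 0).card := by
    refine card_bij (fun c _ => c ∘ e.symm) ?_ ?_ ?_
    · intro c hc
      rw [mem_filter, Fintype.mem_piFinset] at hc ⊢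
      refine ⟨fun i => hc.1 _, ?_⟩
      rw [hQ', MvPolynomial.eval_rename, Function.comp_assoc, e.symm_comp_self,
        Function.comp_id, hQ, MvPolynomial.eval_map]
      exact hc.2
    · intro c _ c' _ h
      funext i
      have := congrFun h (e i)
      simpa using this
    · intro c hc
      rw [mem_filter, Fintype.mem_piFinset] at hc
      refine ⟨c ∘ e, ?_, ?_⟩
      · rw [mem_filter, Fintype.mem_piFinset]
        refine ⟨fun i => ?_, ?_⟩
        · have := hc.1 (e i)
          simpa using this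
        · have h3 := hc.2
          rw [hQ', MvPolynomial.eval_rename, hQ, MvPolynomial.eval_map] at h3
          exact h3
      · funext i
        simp
  have h3 : ∏ i : Fin (Fintype.card ι), ((S (e.symm i)).card : ℚ≥0) = ((∏ i, (S i).card : ℕ) : ℚ≥0) := by
    push_cast
    exact Fintype.prod_equiv e.symm _ _ fun _ => rfl
  have hm0 : (0 : ℚ≥0) < m := by exact_mod_cast hm
  have hpos : (0 : ℚ≥0) < ((∏ i, (S i).card : ℕ) : ℚ≥0) := by
    have : 0 < ∏ i, (S i).card := prod_pos fun i _ => lt_of_lt_of_le hm (hS i)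
    exact_mod_cast this
  have h4 : ∑ i, ((Q'.degreeOf i : ℚ≥0) / ((S (e.symm i)).card : ℚ≥0)) ≤
      ((∑ i, Q'.degreeOf i : ℕ) : ℚ≥0) / m := by
    push_cast
    rw [sum_div]
    refine sum_le_sum fun i _ => ?_
    have h5 : (m : ℚ≥0) ≤ ((S (e.symm i)).card : ℚ≥0) := by exact_mod_cast hS _
    gcongr
  have h5 := h1.trans h4
  rw [h3, div_le_div_iff₀ hpos hm0] at h5
  rw [h2]
  exact_mod_cast h5

end Pool.Agent.Helper53.WP
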