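import Pool.Graph.R_pool_sql_team_seeded_c8625f6e.K4H5.PC.Arch2
import Mathlib.MeasureTheory.Measure.Lebesgue.EqHaar

/-!
# Scaling the norm of the differentials of a plane curve
-/

set_option autoImplicit false

open Polynomial MeasureTheory Finset
open scoped ENNReal

namespace Pool.Agent.Helper53.WP

open Pool.Agent.K4H5.PC

variable {D : ℕ}

/-- the coefficients of `f (X x, Y y)` -/
noncomputable def scl (X Y : ℝ) (c : Idx D → ℂ) : Idx D → ℂ := fun p =>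
  c p * ((X : ℂ) ^ px p * (Y : ℂ) ^ py p)

theorem ev_scl00 (X Y : ℝ) (c : Idx D → ℂ) (x y : ℂ) :
    ev c 0 0 (X * x) (Y * y) = ev (scl X Y c) 0 0 x y := by
  unfold ev scl
  refine sum_congr rfl fun p _ => ?_
  simp only [Nat.descFactorial_zero, Nat.cast_one, mul_one, Nat.sub_zero]
  rw [mul_pow, mul_pow]
  ring

theorem ev_scl01 (X : ℝ) {Y : ℝ} (hY : Y ≠ 0) (c : Idx D → ℂ) (x y : ℂ) :
    ev c 0 1 (X * x) (Y * y) = (Y : ℂ)⁻¹ * ev (scl X Y c) 0 1 x y := by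
  have hY' : (Y : ℂ) ≠ 0 := Complex.ofReal_ne_zero.2 hY
  unfold ev scl
  rw [mul_sum]
  refine sum_congr rfl fun p _ => ?_
  simp only [Nat.descFactorial_zero, Nat.cast_one, mul_one, Nat.sub_zero, Nat.descFactorial_one]
  rcases Nat.eq_zero_or_pos (py p) with h | h
  · rw [h]
    simp
  · obtain ⟨j, hj⟩ : ∃ j, py p = j + 1 := ⟨py p - 1, by omega⟩
    rw [hj, Nat.add_sub_cancel, mul_pow, mul_pow, pow_succ]
    field_simp

theorem iy_scl (X Y : ℝ) (c : Idx D → ℂ) : scl X Y c (iy D) = c (iy D) * (Y : ℂ) ^ D := by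
  unfold scl
  have e1 : px (iy D) = 0 := rfl
  have e2 : py (iy D) = D := rfl
  rw [e1, e2, pow_zero, one_mul]

/-- the sum of the exponents of `x` -/
def sxx (D : ℕ) : ℕ := ∑ q : Jdx D, ji q

/-- the sum of the exponents of `y` -/
def syy (D : ℕ) : ℕ := ∑ q : Jdx D, jj q

theorem sl_ne (c : Idx D → ℂ) (hc : c (iy D) ≠ 0) (z : ℂ) : sl c z ≠ 0 := fun h => by
  have h1 : (sl c z).coeff D = c (iy D) := sl_coeff c z
  rw [h, coeff_zero] at h1
  exact hc h1.symm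

theorem ig_scl {X Y : ℝ} (hX : 0 < X) (hY : 0 < Y) (c : Idx D → ℂ) (hc : c (iy D) ≠ 0)
    (x : Jdx D → ℂ) : ig c (X • x) =
      ENNReal.ofReal (X ^ (2 * sxx D) * Y ^ (2 * syy D) * Y ^ (2 * Fintype.card (Jdx D))) *
        ig (scl X Y c) x := by
  classical
  have hX' : (X : ℂ) ≠ 0 := Complex.ofReal_ne_zero.2 hX.ne'
  have hY' : (Y : ℂ) ≠ 0 := Complex.ofReal_ne_zero.2 hY.ne'
  have hc' : scl X Y c (iy D) ≠ 0 := by
    rw [iy_scl]
    exact mul_ne_zero hc (pow_ne_zero _ hY')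
  have h3 : ∀ k, (X • x) k = (X : ℂ) * x k := fun k => by
    rw [Pi.smul_apply, Complex.real_smul]
  unfold ig
  rw [mul_sum]
  refine sum_nbij' (fun y k => (Y : ℂ)⁻¹ * y k) (fun y k => (Y : ℂ) * y k) ?_ ?_ ?_ ?_ ?_
  · intro y hy
    rw [Fintype.mem_piFinset] at hy ⊢
    intro k
    have h1 := hy k
    rw [Multiset.mem_toFinset, mem_roots (sl_ne c hc _), IsRoot, sl_ev] at h1
    rw [Multiset.mem_toFinset, mem_roots (sl_ne _ hc' _), IsRoot, sl_ev]
    have h2 := ev_scl00 X Y c (x k) ((Y : ℂ)⁻¹ * y k)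
    rw [mul_inv_cancel_left₀ hY'] at h2
    rw [h3, h2] at h1
    exact h1
  · intro y hy
    rw [Fintype.mem_piFinset] at hy ⊢
    intro k
    have h1 := hy k
    rw [Multiset.mem_toFinset, mem_roots (sl_ne _ hc' _), IsRoot, sl_ev] at h1
    rw [Multiset.mem_toFinset, mem_roots (sl_ne c hc _), IsRoot, sl_ev]
    rw [h3, ev_scl00, h1]
  · intro y _
    funext k
    exact mul_inv_cancel_left₀ hY' _
  · intro y _
    funext k
    exact inv_mul_cancel_left₀ hY' _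
  · intro y hy
    set y' : Jdx D → ℂ := fun k => (Y : ℂ)⁻¹ * y k with hy'
    have hyy : ∀ k, y k = (Y : ℂ) * y' k := fun k => (mul_inv_cancel_left₀ hY' _).symm
    have e1 : (Matrix.of fun k q : Jdx D => (X • x) k ^ (q.1.1 : ℕ) * y k ^ (q.1.2 : ℕ)).det =
        ((X : ℂ) ^ sxx D * (Y : ℂ) ^ syy D) *
          (Matrix.of fun k q : Jdx D => x k ^ (q.1.1 : ℕ) * y' k ^ (q.1.2 : ℕ)).det := by
      have h1 : (Matrix.of fun k q : Jdx D => (X • x) k ^ (q.1.1 : ℕ) * y k ^ (q.1.2 : ℕ)) =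
          Matrix.of fun k q : Jdx D => (fun q : Jdx D => (X : ℂ) ^ ji q * (Y : ℂ) ^ jj q) q *
            (Matrix.of fun k q : Jdx D => x k ^ (q.1.1 : ℕ) * y' k ^ (q.1.2 : ℕ)) k q := by
        ext k q
        rw [Matrix.of_apply, Matrix.of_apply, Matrix.of_apply]
        show (X • x k) ^ (q.1.1 : ℕ) * y k ^ (q.1.2 : ℕ) =
          ((X : ℂ) ^ (q.1.1 : ℕ) * (Y : ℂ) ^ (q.1.2 : ℕ)) *
          (x k ^ (q.1.1 : ℕ) * y' k ^ (q.1.2 : ℕ))
        rw [Complex.real_smul, hyy k, mul_pow, mul_pow]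
        ring
      rw [h1, Matrix.det_mul_row, prod_mul_distrib, prod_pow_eq_pow_sum, prod_pow_eq_pow_sum]
      rfl
    have e2 : ENNReal.ofReal (Y ^ (2 * Fintype.card (Jdx D))) *
        ∏ k, ‖ev c 0 1 ((X • x) k) (y k)‖ₑ ^ 2 = ∏ k, ‖ev (scl X Y c) 0 1 (x k) (y' k)‖ₑ ^ 2 := by
      have h1 : ∀ k, ENNReal.ofReal (Y ^ 2) * ‖ev c 0 1 ((X • x) k) (y k)‖ₑ ^ 2 =
          ‖ev (scl X Y c) 0 1 (x k) (y' k)‖ₑ ^ 2 := by
        intro k
        have h4 : ev (scl X Y c) 0 1 (x k) (y' k) = (Y : ℂ) * ev c 0 1 ((X • x) k) (y k) := by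
          rw [hyy k, h3, ev_scl01 X hY.ne', mul_inv_cancel_left₀ hY']
        rw [h4, enorm_mul, mul_pow]
        congr 1
        rw [← ofReal_norm, Complex.norm_real, Real.norm_of_nonneg hY.le,
          ← ENNReal.ofReal_pow (by positivity)]
      rw [← prod_congr rfl fun k _ => h1 k, prod_mul_distrib, prod_const, card_univ,
        ← ENNReal.ofReal_pow (by positivity), ← pow_mul]
    have e3 : ‖(X : ℂ) ^ sxx D * (Y : ℂ) ^ syy D‖ₑ ^ 2 =
        ENNReal.ofReal (X ^ (2 * sxx D) * Y ^ (2 * syy D)) := by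
      rw [← ofReal_norm, norm_mul, norm_pow, norm_pow, Complex.norm_real, Complex.norm_real,
        Real.norm_of_nonneg hX.le, Real.norm_of_nonneg hY.le,
        ← ENNReal.ofReal_pow (by positivity), mul_pow, ← pow_mul, ← pow_mul, mul_comm (sxx D),
        mul_comm (syy D)]
    rw [e1, enorm_mul, mul_pow, e3, ← e2]
    have h0 : ENNReal.ofReal (Y ^ (2 * Fintype.card (Jdx D))) ≠ 0 :=
      (ENNReal.ofReal_pos.2 (by positivity)).ne'
    set u := ENNReal.ofReal (Y ^ (2 * Fintype.card (Jdx D))) with hu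
    set v := ENNReal.ofReal (X ^ (2 * sxx D) * Y ^ (2 * syy D)) with hv
    have h5 : ENNReal.ofReal (X ^ (2 * sxx D) * Y ^ (2 * syy D) * Y ^ (2 * Fintype.card (Jdx D))) =
        v * u := by
      rw [hv, hu, ← ENNReal.ofReal_mul (by positivity)]
    rw [h5]
    set a := ‖(Matrix.of fun k q : Jdx D => x k ^ (q.1.1 : ℕ) * y' k ^ (q.1.2 : ℕ)).det‖ₑ ^ 2
    set b := ∏ k, ‖ev c 0 1 ((X • x) k) (y k)‖ₑ ^ 2
    have h6 : u * (a / (u * b)) = a / b := by
      rw [← mul_div_assoc]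
      exact ENNReal.mul_div_mul_left a b h0 ENNReal.ofReal_ne_top
    rw [mul_assoc, h6, mul_div_assoc]

theorem int_scl {X : ℝ} (hX : 0 < X) (F : (Jdx D → ℂ) → ℝ≥0∞) :
    ∫⁻ x, F x = ENNReal.ofReal (X ^ (2 * Fintype.card (Jdx D))) * ∫⁻ x : Jdx D → ℂ, F (X • x) := by
  have h1 := Measure.map_addHaar_smul (volume : Measure (Jdx D → ℂ)) hX.ne'
  have h2 : Module.finrank ℝ (Jdx D → ℂ) = 2 * Fintype.card (Jdx D) := by
    rw [Module.finrank_pi_fintype]
    simp [Complex.finrank_real_complex, mul_comm]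
  have h3 : ∫⁻ x : Jdx D → ℂ, F (X • x) = ∫⁻ x, F x ∂(Measure.map (X • ·) volume) := by
    exact ((Homeomorph.smulOfNeZero X hX.ne').measurableEmbedding.lintegral_map F).symm
  rw [h3, h1, lintegral_smul_measure, h2, smul_eq_mul, ← mul_assoc, ← ENNReal.ofReal_mul (by positivity),
    abs_of_pos (by positivity), mul_inv_cancel₀ (by positivity), ENNReal.ofReal_one, one_mul]

/-- separability -/
theorem sep_scl {X Y : ℝ} (hX : X ≠ 0) (hY : Y ≠ 0) (c : Idx D → ℂ)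
    (h : ∃ x : ℂ, (sl c x).Separable) : ∃ x : ℂ, (sl (scl X Y c) x).Separable := by
  have hX' : (X : ℂ) ≠ 0 := Complex.ofReal_ne_zero.2 hX
  have hY' : (Y : ℂ) ≠ 0 := Complex.ofReal_ne_zero.2 hY
  obtain ⟨x, a, b, hab⟩ := h
  refine ⟨(X : ℂ)⁻¹ * x, a.comp (C (Y : ℂ) * Polynomial.X),
    C ((Y : ℂ)⁻¹) * b.comp (C (Y : ℂ) * Polynomial.X), ?_⟩
  have h1 : sl (scl X Y c) ((X : ℂ)⁻¹ * x) = (sl c x).comp (C (Y : ℂ) * Polynomial.X) := by
    unfold sl scl
    rw [Polynomial.sum_comp]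
    refine sum_congr rfl fun p _ => ?_
    have h2 : (X : ℂ) ^ px p * ((X : ℂ)⁻¹) ^ px p = 1 := by
      rw [← mul_pow, mul_inv_cancel₀ hX', one_pow]
    have h4 : c p * ((X : ℂ) ^ px p * (Y : ℂ) ^ py p) * ((X : ℂ)⁻¹ * x) ^ px p =
        c p * x ^ px p * (Y : ℂ) ^ py p := by
      rw [mul_pow]
      linear_combination (c p * (Y : ℂ) ^ py p * x ^ px p) * h2
    rw [h4, mul_comp, C_comp, pow_comp, X_comp, mul_pow (C (Y : ℂ)), ← C_pow,
      C_mul (a := c p * x ^ px p)]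
    ring
  have h2 := congrArg (fun q => q.comp (C (Y : ℂ) * Polynomial.X)) hab
  simp only [add_comp, mul_comp, one_comp] at h2
  rw [h1, ← h2, derivative_comp, derivative_mul, derivative_C, derivative_X, zero_mul, zero_add,
    mul_one]
  have h3 : (C ((Y : ℂ)⁻¹) * C (Y : ℂ) : ℂ[X]) = 1 := by
    rw [← C_mul, inv_mul_cancel₀ hY', C_1]
  linear_combination (b.comp (C (Y : ℂ) * Polynomial.X) *
    (derivative (sl c x)).comp (C (Y : ℂ) * Polynomial.X)) * h3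

end Pool.Agent.Helper53.WP
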